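import Pool.Agent.Helper75.PM.Stm

/-!
# Package `SA` of the project PM: Selberg's diagonalisation
-/

set_option autoImplicit false

open Finset
open Pool.Agent.Helper75.PM (w SS kp QF S_diag)

namespace Pool.Agent.Helper46.PM

noncomputable section

def mu (n : ℕ) : ℝ := ((ArithmeticFunction.moebius n : ℤ) : ℝ)

theorem mu_one : mu 1 = 1 := by simp [mu]

theorem mu_nsq {n : ℕ} (h : ¬ Squarefree n) : mu n = 0 := by
  simp [mu, ArithmeticFunction.moebius_eq_zero_of_not_squarefree h]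

theorem mu_sq {n : ℕ} (h : Squarefree n) : mu n ^ 2 = 1 := by
  have := ArithmeticFunction.moebius_sq_eq_one_of_squarefree h
  unfold mu
  exact_mod_cast this

theorem mu_mul {m n : ℕ} (h : m.Coprime n) : mu (m * n) = mu m * mu n := by
  unfold mu
  rw [ArithmeticFunction.isMultiplicative_moebius.map_mul_of_coprime h]
  push_cast; rfl

theorem mu_prime {p : ℕ} (h : p.Prime) : mu p = -1 := by
  simp [mu, ArithmeticFunction.moebius_apply_prime h]

theorem w_def (n : ℕ) : w n = mu n ^ 2 / (Nat.totient n : ℝ) := rfl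

theorem w_nonneg (n : ℕ) : 0 ≤ w n := by
  rw [w_def]; positivity

theorem w_nsq {n : ℕ} (h : ¬ Squarefree n) : w n = 0 := by
  rw [w_def, mu_nsq h]; simp

theorem w_one : w 1 = 1 := by
  rw [w_def, mu_one]; simp

theorem w_mul {m n : ℕ} (h : m.Coprime n) : w (m * n) = w m * w n := by
  rw [w_def, w_def, w_def, mu_mul h, Nat.totient_mul h]
  push_cast
  rw [mul_pow, mul_div_mul_comm]

theorem w_prime {p : ℕ} (h : p.Prime) : w p = 1 / ((p : ℝ) - 1) := by
  rw [w_def, mu_prime h, Nat.totient_prime h, Nat.cast_sub h.one_le]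
  norm_num

theorem mu_sq_w (n : ℕ) : mu n ^ 2 * w n = w n := by
  by_cases h : Squarefree n
  · rw [mu_sq h, one_mul]
  · rw [w_nsq h, mul_zero]

theorem phi_w_sq (n : ℕ) : (Nat.totient n : ℝ) * w n ^ 2 = w n := by
  by_cases h : Squarefree n
  · have h0 : (0 : ℝ) < Nat.totient n := by
      exact_mod_cast Nat.totient_pos.2 (Nat.pos_of_ne_zero h.ne_zero)
    rw [w_def, mu_sq h]
    field_simp
  · rw [w_nsq h]; simp

/-- the Möbius function, summed over an interval of the divisibility order -/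
theorem inner {N n d : ℕ} (hn : Squarefree n) (hN : n ≤ N) (hd : 1 ≤ d) :
    ∑ h ∈ Icc 1 N, (if d ∣ h ∧ h ∣ n then mu h else 0) = if n = d then mu d else 0 := by
  have hn0 : 0 < n := Nat.pos_of_ne_zero hn.ne_zero
  by_cases hdn : d ∣ n
  · obtain ⟨k, rfl⟩ := hdn
    have hk0 : 0 < k := Nat.pos_of_mul_pos_left hn0 |> fun _ => by
      rcases Nat.eq_zero_or_pos k with h | h
      · subst h; simp at hn0
      · exact h
    have hcop : d.Coprime k := Nat.coprime_of_squarefree_mul hn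
    have h1 : ∑ h ∈ Icc 1 N, (if d ∣ h ∧ h ∣ d * k then mu h else 0) =
        ∑ e ∈ k.divisors, mu (d * e) := by
      rw [← Finset.sum_filter]
      symm
      refine Finset.sum_bij (fun e _ => d * e) ?_ ?_ ?_ ?_
      · intro e he
        have he' := Nat.dvd_of_mem_divisors he
        have he0 : 0 < e := Nat.pos_of_dvd_of_pos he' hk0
        have h2 : d * e ∣ d * k := Nat.mul_dvd_mul_left d he'
        simp only [Finset.mem_filter, Finset.mem_Icc]
        exact ⟨⟨Nat.mul_pos hd he0, (Nat.le_of_dvd hn0 h2).trans hN⟩, Dvd.intro e rfl, h2⟩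
      · intro e _ e' _ h
        exact Nat.eq_of_mul_eq_mul_left hd h
      · intro h hh
        simp only [Finset.mem_filter, Finset.mem_Icc] at hh
        obtain ⟨_, ⟨e, rfl⟩, h3⟩ := hh
        exact ⟨e, Nat.mem_divisors.2 ⟨Nat.dvd_of_mul_dvd_mul_left hd h3, hk0.ne'⟩, rfl⟩
      · intro e _; rfl
    have h2 : ∑ e ∈ k.divisors, mu (d * e) = mu d * ∑ e ∈ k.divisors, mu e := by
      rw [Finset.mul_sum]
      refine Finset.sum_congr rfl fun e he => ?_
      exact mu_mul (hcop.coprime_dvd_right (Nat.dvd_of_mem_divisors he))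
    have h3 : ∑ e ∈ k.divisors, mu e = if k = 1 then 1 else 0 := by
      have h4 : ∑ e ∈ k.divisors, ArithmeticFunction.moebius e = if k = 1 then 1 else 0 := by
        rw [← ArithmeticFunction.coe_mul_zeta_apply, ArithmeticFunction.moebius_mul_coe_zeta,
          ArithmeticFunction.one_apply]
      unfold mu
      rw [← Int.cast_sum, h4]
      split_ifs <;> simp
    rw [h1, h2, h3]
    by_cases hk : k = 1
    · subst hk; simp
    · rw [if_neg hk, mul_zero, if_neg]
      intro h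
      apply hk
      have : d * k = d * 1 := by rw [mul_one]; exact h
      exact Nat.eq_of_mul_eq_mul_left hd this
  · rw [if_neg (fun h : n = d => hdn (by rw [h]))]
    refine Finset.sum_eq_zero fun h _ => ?_
    rw [if_neg]
    rintro ⟨h1, h2⟩
    exact hdn (h1.trans h2)

/-- the coefficients divided by the index -/
def bb (N : ℕ) (h : ℕ) : ℝ := 1 / SS N * (mu h * ∑ n ∈ Icc 1 N, if h ∣ n then w n else 0)

/-- the coefficients -/
def aa (N : ℕ) (h : ℕ) : ℝ := h * bb N h

/-- the diagonalising variables -/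
def yy (N : ℕ) (d : ℕ) : ℝ := ∑ h ∈ Icc 1 N, if d ∣ h then bb N h else 0

theorem yy_eq {N d : ℕ} (hd : 1 ≤ d) (hdN : d ≤ N) : yy N d = 1 / SS N * (mu d * w d) := by
  have h1 : yy N d = ∑ n ∈ Icc 1 N, 1 / SS N * (w n *
      ∑ h ∈ Icc 1 N, (if d ∣ h ∧ h ∣ n then mu h else 0)) := by
    unfold yy
    have h2 : ∀ h ∈ Icc 1 N, (if d ∣ h then bb N h else 0) =
        ∑ n ∈ Icc 1 N, 1 / SS N * (w n * (if d ∣ h ∧ h ∣ n then mu h else 0)) := by
      intro h _
      by_cases hdh : d ∣ h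
      · rw [if_pos hdh]
        unfold bb
        rw [Finset.mul_sum, Finset.mul_sum]
        refine Finset.sum_congr rfl fun n _ => ?_
        by_cases hhn : h ∣ n
        · rw [if_pos hhn, if_pos ⟨hdh, hhn⟩]; ring
        · rw [if_neg hhn, if_neg (fun h' => hhn h'.2)]; ring
      · rw [if_neg hdh]
        symm
        refine Finset.sum_eq_zero fun n _ => ?_
        rw [if_neg (fun h' => hdh h'.1)]; ring
    rw [Finset.sum_congr rfl h2, Finset.sum_comm]
    refine Finset.sum_congr rfl fun n _ => ?_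
    rw [Finset.mul_sum, Finset.mul_sum]
  rw [h1]
  have h3 : ∀ n ∈ Icc 1 N, 1 / SS N * (w n *
      ∑ h ∈ Icc 1 N, (if d ∣ h ∧ h ∣ n then mu h else 0)) =
      if n = d then 1 / SS N * (mu d * w d) else 0 := by
    intro n hn
    by_cases hs : Squarefree n
    · rw [inner hs (Finset.mem_Icc.1 hn).2 hd]
      by_cases h : n = d
      · subst h; rw [if_pos rfl, if_pos rfl]; ring
      · rw [if_neg h, if_neg h]; ring
    · rw [w_nsq hs]
      by_cases h : n = d
      · subst h; rw [if_pos rfl, w_nsq hs]; ring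
      · rw [if_neg h]; ring
  rw [Finset.sum_congr rfl h3, Finset.sum_ite_eq' (Icc 1 N) d, if_pos (Finset.mem_Icc.2 ⟨hd, hdN⟩)]

theorem yy_big {N d : ℕ} (hdN : N < d) : yy N d = 0 := by
  refine Finset.sum_eq_zero fun h hh => ?_
  rw [if_neg]
  intro hd
  have h1 := Finset.mem_Icc.1 hh
  have := Nat.le_of_dvd (by omega) hd
  omega

/-- the greatest common divisor as a sum over the common divisors -/
theorem gcd_sum (N : ℕ) (u v : ℕ → ℝ) :
    ∑ h ∈ Icc 1 N, ∑ l ∈ Icc 1 N, u h * v l * (Nat.gcd h l : ℝ) =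
      ∑ d ∈ Icc 1 N, (Nat.totient d : ℝ) * ((∑ h ∈ Icc 1 N, if d ∣ h then u h else 0) *
        ∑ l ∈ Icc 1 N, if d ∣ l then v l else 0) := by
  have h1 : ∀ h ∈ Icc 1 N, ∀ l ∈ Icc 1 N, (Nat.gcd h l : ℝ) =
      ∑ d ∈ Icc 1 N, if d ∣ h ∧ d ∣ l then (Nat.totient d : ℝ) else 0 := by
    intro h hh l hl
    have hh' := Finset.mem_Icc.1 hh
    rw [← Finset.sum_filter]
    have h2 : (Icc 1 N).filter (fun d => d ∣ h ∧ d ∣ l) = (Nat.gcd h l).divisors := by
      ext d
      simp only [Finset.mem_filter, Finset.mem_Icc, Nat.mem_divisors, Nat.dvd_gcd_iff]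
      constructor
      · rintro ⟨_, h3⟩
        exact ⟨h3, (Nat.gcd_pos_of_pos_left _ (by omega)).ne'⟩
      · rintro ⟨h3, _⟩
        have h4 := Nat.le_of_dvd (by omega) h3.1
        have h5 := Nat.pos_of_dvd_of_pos h3.1 (by omega)
        exact ⟨⟨h5, by omega⟩, h3⟩
    rw [h2, ← Nat.cast_sum, Nat.sum_totient]
  have h3 : ∀ h ∈ Icc 1 N, ∀ l ∈ Icc 1 N, u h * v l * (Nat.gcd h l : ℝ) =
      ∑ d ∈ Icc 1 N, (Nat.totient d : ℝ) * ((if d ∣ h then u h else 0) *
        (if d ∣ l then v l else 0)) := by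
    intro h hh l hl
    rw [h1 h hh l hl, Finset.mul_sum]
    refine Finset.sum_congr rfl fun d _ => ?_
    by_cases h4 : d ∣ h <;> by_cases h5 : d ∣ l <;> simp [h4, h5]; ring
  calc ∑ h ∈ Icc 1 N, ∑ l ∈ Icc 1 N, u h * v l * (Nat.gcd h l : ℝ)
      = ∑ h ∈ Icc 1 N, ∑ l ∈ Icc 1 N, ∑ d ∈ Icc 1 N, (Nat.totient d : ℝ) *
        ((if d ∣ h then u h else 0) * (if d ∣ l then v l else 0)) :=
        Finset.sum_congr rfl fun h hh => Finset.sum_congr rfl fun l hl => h3 h hh l hl
    _ = ∑ h ∈ Icc 1 N, ∑ d ∈ Icc 1 N, ∑ l ∈ Icc 1 N, (Nat.totient d : ℝ) *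
        ((if d ∣ h then u h else 0) * (if d ∣ l then v l else 0)) :=
        Finset.sum_congr rfl fun h _ => Finset.sum_comm
    _ = ∑ d ∈ Icc 1 N, ∑ h ∈ Icc 1 N, ∑ l ∈ Icc 1 N, (Nat.totient d : ℝ) *
        ((if d ∣ h then u h else 0) * (if d ∣ l then v l else 0)) := Finset.sum_comm
    _ = _ := by
        refine Finset.sum_congr rfl fun d _ => ?_
        rw [Finset.sum_mul_sum, Finset.mul_sum]
        refine Finset.sum_congr rfl fun h _ => ?_
        rw [Finset.mul_sum]

/-- divisibility by `p` -/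
def ee (p h : ℕ) : ℝ := if p ∣ h then 1 else 0

/-- the common factor -/
theorem yy_ee {N p d : ℕ} (hp : p.Prime) :
    (∑ h ∈ Icc 1 N, if d ∣ h then bb N h * ee p h else 0) =
      if p ∣ d then yy N d else yy N (d * p) := by
  by_cases hpd : p ∣ d
  · rw [if_pos hpd]
    refine Finset.sum_congr rfl fun h _ => ?_
    by_cases hdh : d ∣ h
    · rw [if_pos hdh, if_pos hdh, ee, if_pos (hpd.trans hdh), mul_one]
    · rw [if_neg hdh, if_neg hdh]
  · rw [if_neg hpd]
    refine Finset.sum_congr rfl fun h _ => ?_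
    have hc : d.Coprime p := ((Nat.Prime.coprime_iff_not_dvd hp).2 hpd).symm
    by_cases hdh : d ∣ h
    · rw [if_pos hdh, ee]
      by_cases hph : p ∣ h
      · rw [if_pos hph, mul_one, if_pos (hc.mul_dvd_of_dvd_of_dvd hdh hph)]
      · rw [if_neg hph, mul_zero, if_neg (fun h' => hph ((Dvd.intro_left d rfl).trans h'))]
    · rw [if_neg hdh, if_neg (fun h' => hdh ((Dvd.intro p rfl).trans h'))]

/-- one prime -/
theorem one_prime {N p : ℕ} (hp : p.Prime) :
    ∑ h ∈ Icc 1 N, ∑ l ∈ Icc 1 N, (bb N h * ee p h) * (bb N l * (1 - ee p l)) *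
      (Nat.gcd h l : ℝ) =
    -((1 / SS N) ^ 2 * (1 + 1 / ((p : ℝ) - 1)) * ∑ m ∈ Icc 1 N, if p ∣ m then w m else 0) := by
  have hp1 : (0 : ℝ) < (p : ℝ) - 1 := by
    have := hp.one_lt
    have : (1 : ℝ) < p := by exact_mod_cast this
    linarith
  rw [gcd_sum N (fun h => bb N h * ee p h) (fun l => bb N l * (1 - ee p l))]
  have h1 : ∀ d, (∑ l ∈ Icc 1 N, if d ∣ l then bb N l * (1 - ee p l) else 0) =
      yy N d - if p ∣ d then yy N d else yy N (d * p) := by
    intro d
    rw [← yy_ee hp, yy, ← Finset.sum_sub_distrib]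
    refine Finset.sum_congr rfl fun l _ => ?_
    split_ifs <;> ring
  have h2 : ∀ d ∈ Icc 1 N, (Nat.totient d : ℝ) *
      ((∑ h ∈ Icc 1 N, if d ∣ h then bb N h * ee p h else 0) *
        ∑ l ∈ Icc 1 N, if d ∣ l then bb N l * (1 - ee p l) else 0) =
      -((1 / SS N) ^ 2 * (1 + 1 / ((p : ℝ) - 1)) * if d * p ≤ N then w (d * p) else 0) := by
    intro d hd
    have hd' := Finset.mem_Icc.1 hd
    rw [h1 d, yy_ee hp]
    by_cases hpd : p ∣ d
    · rw [if_pos hpd, sub_self]
      have : w (d * p) = 0 := by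
        apply w_nsq
        intro hs
        obtain ⟨e, rfl⟩ := hpd
        have h3 := hs p ⟨e, by ring⟩
        exact hp.one_lt.ne' (Nat.isUnit_iff.1 h3)
      rw [this]
      simp
    · rw [if_neg hpd]
      have hc : d.Coprime p := ((Nat.Prime.coprime_iff_not_dvd hp).2 hpd).symm
      by_cases hdp : d * p ≤ N
      · rw [if_pos hdp, yy_eq (Nat.mul_pos hd'.1 hp.pos) hdp, yy_eq hd'.1 hd'.2, mu_mul hc,
          w_mul hc, mu_prime hp, w_prime hp]
        have e1 := phi_w_sq d
        have e2 := mu_sq_w d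
        have : (Nat.totient d : ℝ) * (1 / SS N * (mu d * -1 * (w d * (1 / ((p : ℝ) - 1)))) *
            (1 / SS N * (mu d * w d) - 1 / SS N * (mu d * -1 * (w d * (1 / ((p : ℝ) - 1)))))) =
            -((1 / SS N) ^ 2 * (1 + 1 / ((p : ℝ) - 1)) * (1 / ((p : ℝ) - 1)) *
              (mu d ^ 2 * (Nat.totient d * w d ^ 2))) := by ring
        rw [this, e1, e2]
        ring
      · rw [if_neg hdp, yy_big (by omega)]
        simp
  rw [Finset.sum_congr rfl h2, Finset.sum_neg_distrib, ← Finset.mul_sum]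
  congr 2
  -- the bijection `d ↦ d p`
  rw [← Finset.sum_filter, ← Finset.sum_filter]
  refine Finset.sum_bij (fun d _ => d * p) ?_ ?_ ?_ ?_
  · intro d hd
    simp only [Finset.mem_filter, Finset.mem_Icc] at hd ⊢
    exact ⟨⟨Nat.mul_pos hd.1.1 hp.pos, hd.2⟩, Dvd.intro_left d rfl⟩
  · intro d _ d' _ h
    exact Nat.eq_of_mul_eq_mul_right hp.pos h
  · intro m hm
    simp only [Finset.mem_filter, Finset.mem_Icc] at hm
    obtain ⟨⟨h3, h4⟩, k, rfl⟩ := hm
    have hk : 1 ≤ k := by
      rcases Nat.eq_zero_or_pos k with h | h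
      · subst h; simp at h3
      · exact h
    refine ⟨k, ?_, mul_comm _ _⟩
    simp only [Finset.mem_filter, Finset.mem_Icc]
    refine ⟨⟨hk, ?_⟩, by rw [mul_comm]; exact h4⟩
    calc k = 1 * k := (one_mul k).symm
      _ ≤ p * k := Nat.mul_le_mul_right k hp.one_le
      _ ≤ N := h4
  · intro d _; rfl

/-- the logarithm of a squarefree number -/
theorem log_sqf {N h : ℕ} (hs : Squarefree h) (hN : h ≤ N) :
    Real.log h = ∑ p ∈ (Icc 1 N).filter Nat.Prime, Real.log p * ee p h := by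
  have h0 : 0 < h := Nat.pos_of_ne_zero hs.ne_zero
  have h1 : ∑ p ∈ (Icc 1 N).filter Nat.Prime, Real.log p * ee p h =
      ∑ p ∈ h.primeFactors, Real.log p := by
    unfold ee
    simp only [mul_ite, mul_one, mul_zero]
    rw [← Finset.sum_filter]
    refine Finset.sum_congr ?_ fun _ _ => rfl
    ext p
    simp only [Finset.mem_filter, Finset.mem_Icc, Nat.mem_primeFactors]
    constructor
    · rintro ⟨⟨_, h2⟩, h3⟩
      exact ⟨h2, h3, h0.ne'⟩
    · rintro ⟨h2, h3, _⟩
      have := Nat.le_of_dvd h0 h3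
      exact ⟨⟨⟨h2.one_le, by omega⟩, h2⟩, h3⟩
  rw [h1, ← Real.log_prod (fun p hp => by
    have := (Nat.prime_of_mem_primeFactors hp).pos
    positivity), ← Nat.cast_prod, Nat.prod_primeFactors_of_squarefree hs]

theorem bb_nsq {N h : ℕ} (hs : ¬ Squarefree h) : bb N h = 0 := by
  unfold bb; rw [mu_nsq hs]; ring

/-- one term of the quadratic form -/
theorem term {N h l : ℕ} (hh : h ∈ Icc 1 N) (hl : l ∈ Icc 1 N) (L : ℝ) :
    aa N h * aa N l * (1 / (Nat.lcm h l : ℝ) *
      (L + Real.log ((Nat.gcd h l : ℝ) ^ 2 / ((h : ℝ) * l)))) =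
    L * (bb N h * bb N l * (Nat.gcd h l : ℝ)) -
      ∑ p ∈ (Icc 1 N).filter Nat.Prime, Real.log p *
        ((bb N h * ee p h) * (bb N l * (1 - ee p l)) * (Nat.gcd h l : ℝ) +
        (bb N l * ee p l) * (bb N h * (1 - ee p h)) * (Nat.gcd l h : ℝ)) := by
  have hh' := Finset.mem_Icc.1 hh
  have hl' := Finset.mem_Icc.1 hl
  by_cases hs : Squarefree h
  · by_cases hs' : Squarefree l
    · have h0 : (0 : ℝ) < h := by exact_mod_cast hh'.1
      have l0 : (0 : ℝ) < l := by exact_mod_cast hl'.1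
      have g0' : 0 < Nat.gcd h l := Nat.gcd_pos_of_pos_left _ hh'.1
      have g0 : (0 : ℝ) < Nat.gcd h l := by exact_mod_cast g0'
      have hgl : (Nat.gcd h l : ℝ) * (Nat.lcm h l : ℝ) = h * l := by
        exact_mod_cast Nat.gcd_mul_lcm h l
      have c0 : (0 : ℝ) < Nat.lcm h l := by
        have := Nat.lcm_pos hh'.1 hl'.1
        exact_mod_cast this
      have hlog : Real.log ((Nat.gcd h l : ℝ) ^ 2 / ((h : ℝ) * l)) =
          2 * Real.log (Nat.gcd h l) - Real.log h - Real.log l := by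
        rw [Real.log_div (by positivity) (by positivity), Real.log_pow,
          Real.log_mul h0.ne' l0.ne']
        push_cast; ring
      have hsg : Squarefree (Nat.gcd h l) := hs.squarefree_of_dvd (Nat.gcd_dvd_left h l)
      have hg : Real.log (Nat.gcd h l) =
          ∑ p ∈ (Icc 1 N).filter Nat.Prime, Real.log p * (ee p h * ee p l) := by
        rw [log_sqf hsg ((Nat.le_of_dvd hh'.1 (Nat.gcd_dvd_left h l)).trans hh'.2)]
        refine Finset.sum_congr rfl fun p _ => ?_
        unfold ee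
        congr 1
        simp only [Nat.dvd_gcd_iff]
        by_cases h3 : p ∣ h <;> by_cases h4 : p ∣ l <;> simp [h3, h4]
      have hsum : 2 * Real.log (Nat.gcd h l) - Real.log h - Real.log l =
          -∑ p ∈ (Icc 1 N).filter Nat.Prime, Real.log p *
            (ee p h * (1 - ee p l) + ee p l * (1 - ee p h)) := by
        rw [hg, log_sqf hs hh'.2, log_sqf hs' hl'.2, Finset.mul_sum, ← Finset.sum_sub_distrib,
          ← Finset.sum_sub_distrib, ← Finset.sum_neg_distrib]
        refine Finset.sum_congr rfl fun p _ => ?_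
        ring
      have hab : aa N h * aa N l * (1 / (Nat.lcm h l : ℝ)) = bb N h * bb N l * (Nat.gcd h l : ℝ) := by
        unfold aa
        have : (h : ℝ) * bb N h * (l * bb N l) * (1 / (Nat.lcm h l : ℝ)) =
            bb N h * bb N l * ((h * l) / (Nat.lcm h l : ℝ)) := by ring
        rw [this, ← hgl]
        field_simp
      rw [← mul_assoc, hab, hlog, hsum, mul_add, mul_neg, Finset.mul_sum, mul_comm L]
      rw [sub_eq_add_neg]
      congr 2
      refine Finset.sum_congr rfl fun p _ => ?_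
      rw [Nat.gcd_comm l h]
      ring
    · simp [aa, bb_nsq hs']
  · simp [aa, bb_nsq hs]

/-- the quadratic form -/
theorem form {N : ℕ} (L : ℝ) : QF N (aa N) L = (1 / SS N) ^ 2 * (L * SS N +
    2 * ∑ d ∈ Icc 1 N, w d * kp d + 2 * ∑ m ∈ Icc 1 N, w m * Real.log m) := by
  have h1 : QF N (aa N) L = L * (∑ h ∈ Icc 1 N, ∑ l ∈ Icc 1 N, bb N h * bb N l *
      (Nat.gcd h l : ℝ)) - ∑ p ∈ (Icc 1 N).filter Nat.Prime, Real.log p *
        (2 * ∑ h ∈ Icc 1 N, ∑ l ∈ Icc 1 N, (bb N h * ee p h) * (bb N l * (1 - ee p l)) *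
          (Nat.gcd h l : ℝ)) := by
    unfold QF
    have h2 : ∀ p, (2 * ∑ h ∈ Icc 1 N, ∑ l ∈ Icc 1 N, (bb N h * ee p h) *
        (bb N l * (1 - ee p l)) * (Nat.gcd h l : ℝ)) =
        ∑ h ∈ Icc 1 N, ∑ l ∈ Icc 1 N,
        ((bb N h * ee p h) * (bb N l * (1 - ee p l)) * (Nat.gcd h l : ℝ) +
        (bb N l * ee p l) * (bb N h * (1 - ee p h)) * (Nat.gcd l h : ℝ)) := by
      intro p
      simp only [Finset.sum_add_distrib]
      rw [two_mul]
      congr 1
      exact Finset.sum_comm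
    simp only [h2]
    have h3 : ∀ p : ℕ, Real.log p * ∑ h ∈ Icc 1 N, ∑ l ∈ Icc 1 N,
        ((bb N h * ee p h) * (bb N l * (1 - ee p l)) * (Nat.gcd h l : ℝ) +
        (bb N l * ee p l) * (bb N h * (1 - ee p h)) * (Nat.gcd l h : ℝ)) =
        ∑ h ∈ Icc 1 N, ∑ l ∈ Icc 1 N, Real.log p *
        ((bb N h * ee p h) * (bb N l * (1 - ee p l)) * (Nat.gcd h l : ℝ) +
        (bb N l * ee p l) * (bb N h * (1 - ee p h)) * (Nat.gcd l h : ℝ)) := by
      intro p
      rw [Finset.mul_sum]
      refine Finset.sum_congr rfl fun h _ => ?_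
      rw [Finset.mul_sum]
    simp only [h3]
    rw [Finset.sum_comm (s := (Icc 1 N).filter Nat.Prime), Finset.mul_sum,
      ← Finset.sum_sub_distrib]
    refine Finset.sum_congr rfl fun h hh => ?_
    rw [Finset.sum_comm (s := (Icc 1 N).filter Nat.Prime), Finset.mul_sum,
      ← Finset.sum_sub_distrib]
    refine Finset.sum_congr rfl fun l hl => ?_
    exact term hh hl L
  have h4 : ∑ h ∈ Icc 1 N, ∑ l ∈ Icc 1 N, bb N h * bb N l * (Nat.gcd h l : ℝ) =
      (1 / SS N) ^ 2 * SS N := by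
    rw [gcd_sum N (bb N) (bb N), SS, Finset.mul_sum]
    refine Finset.sum_congr rfl fun d hd => ?_
    have hd' := Finset.mem_Icc.1 hd
    have h5 := yy_eq hd'.1 hd'.2
    unfold yy at h5
    rw [h5]
    have e1 := phi_w_sq d
    have e2 := mu_sq_w d
    have e3 : (Nat.totient d : ℝ) * (1 / SS N * (mu d * w d) * (1 / SS N * (mu d * w d))) =
        (1 / SS N) ^ 2 * (mu d ^ 2 * (Nat.totient d * w d ^ 2)) := by ring
    rw [e3, e1, e2, SS]
  have h6 : ∑ p ∈ (Icc 1 N).filter Nat.Prime, Real.log p *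
        (2 * ∑ h ∈ Icc 1 N, ∑ l ∈ Icc 1 N, (bb N h * ee p h) * (bb N l * (1 - ee p l)) *
          (Nat.gcd h l : ℝ)) = -((1 / SS N) ^ 2 * (2 * ∑ m ∈ Icc 1 N, (w m * kp m +
            w m * Real.log m))) := by
    have h7 : ∀ p ∈ (Icc 1 N).filter Nat.Prime, Real.log p *
        (2 * ∑ h ∈ Icc 1 N, ∑ l ∈ Icc 1 N, (bb N h * ee p h) * (bb N l * (1 - ee p l)) *
          (Nat.gcd h l : ℝ)) = ∑ m ∈ Icc 1 N, -((1 / SS N) ^ 2 * (2 * (w m *
            (Real.log p * (1 + 1 / ((p : ℝ) - 1)) * ee p m)))) := by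
      intro p hp
      rw [one_prime (Finset.mem_filter.1 hp).2, mul_neg, mul_neg, Finset.sum_neg_distrib,
        Finset.mul_sum, Finset.mul_sum, Finset.mul_sum]
      congr 1
      refine Finset.sum_congr rfl fun m _ => ?_
      unfold ee
      split_ifs <;> ring
    rw [Finset.sum_congr rfl h7, Finset.sum_comm, Finset.mul_sum, Finset.mul_sum,
      ← Finset.sum_neg_distrib]
    refine Finset.sum_congr rfl fun m hm => ?_
    have hm' := Finset.mem_Icc.1 hm
    rw [Finset.sum_neg_distrib, ← Finset.mul_sum, ← Finset.mul_sum, ← Finset.mul_sum]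
    congr 3
    by_cases hs : Squarefree m
    · rw [← mul_add]
      congr 1
      have h8 : kp m = ∑ p ∈ (Icc 1 N).filter Nat.Prime,
          Real.log p / ((p : ℝ) - 1) * ee p m := by
        unfold kp ee
        simp only [mul_ite, mul_one, mul_zero]
        rw [← Finset.sum_filter]
        refine Finset.sum_congr ?_ fun _ _ => rfl
        ext p
        simp only [Finset.mem_filter, Finset.mem_Icc, Nat.mem_primeFactors]
        constructor
        · rintro ⟨h2, h3, _⟩
          have := Nat.le_of_dvd hm'.1 h3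
          exact ⟨⟨⟨h2.one_le, by omega⟩, h2⟩, h3⟩
        · rintro ⟨⟨_, h2⟩, h3⟩
          exact ⟨h2, h3, by omega⟩
      rw [h8, log_sqf hs hm'.2, ← Finset.sum_add_distrib]
      refine Finset.sum_congr rfl fun p _ => ?_
      ring
    · rw [w_nsq hs]; ring
  rw [h1, h4, h6, Finset.sum_add_distrib]
  ring

/-- the bound for the coefficients: one prime -/
theorem step {N h p : ℕ} (hp : p.Prime) :
    (p : ℝ) * ∑ n ∈ Icc 1 N, (if h * p ∣ n then w n else 0) ≤
      ∑ n ∈ Icc 1 N, (if h ∣ n then w n else 0) := by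
  have hp1 : (0 : ℝ) < (p : ℝ) - 1 := by
    have := hp.one_lt
    have : (1 : ℝ) < p := by exact_mod_cast this
    linarith
  -- numbers divisible by `h`, and by `p` or not
  have h1 : ∑ n ∈ Icc 1 N, (if h ∣ n then w n else 0) =
      ∑ n ∈ Icc 1 N, (if h ∣ n ∧ p ∣ n then w n else 0) +
      ∑ n ∈ Icc 1 N, (if h ∣ n ∧ ¬ p ∣ n then w n else 0) := by
    rw [← Finset.sum_add_distrib]
    refine Finset.sum_congr rfl fun n _ => ?_
    by_cases h2 : h ∣ n <;> by_cases h3 : p ∣ n <;> simp [h2, h3]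
  have h2 : ∑ n ∈ Icc 1 N, (if h * p ∣ n then w n else 0) ≤
      ∑ n ∈ Icc 1 N, (if h ∣ n ∧ p ∣ n then w n else 0) := by
    refine Finset.sum_le_sum fun n _ => ?_
    by_cases h3 : h * p ∣ n
    · rw [if_pos h3, if_pos ⟨(Dvd.intro p rfl).trans h3, (Dvd.intro_left h rfl).trans h3⟩]
    · rw [if_neg h3]
      split_ifs
      · exact w_nonneg n
      · exact le_rfl
  have h3 : ((p : ℝ) - 1) * ∑ n ∈ Icc 1 N, (if h * p ∣ n then w n else 0) ≤
      ∑ n ∈ Icc 1 N, (if h ∣ n ∧ ¬ p ∣ n then w n else 0) := by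
    rw [Finset.mul_sum]
    have h4 : ∀ n ∈ Icc 1 N, ((p : ℝ) - 1) * (if h * p ∣ n then w n else 0) =
        if h * p ∣ n ∧ Squarefree n then w (n / p) else 0 := by
      intro n hn
      by_cases h5 : h * p ∣ n
      · by_cases hs : Squarefree n
        · rw [if_pos h5, if_pos ⟨h5, hs⟩]
          obtain ⟨k, rfl⟩ := (Dvd.intro_left h rfl : p ∣ h * p).trans h5
          have hc : p.Coprime k := Nat.coprime_of_squarefree_mul hs
          rw [w_mul hc, w_prime hp, Nat.mul_div_cancel_left k hp.pos]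
          field_simp
        · rw [if_pos h5, if_neg (fun h' => hs h'.2), w_nsq hs, mul_zero]
      · rw [if_neg h5, if_neg (fun h' => h5 h'.1), mul_zero]
    rw [Finset.sum_congr rfl h4, ← Finset.sum_filter, ← Finset.sum_filter]
    have h5 : ∑ n ∈ (Icc 1 N).filter (fun n => h * p ∣ n ∧ Squarefree n), w (n / p) =
        ∑ m ∈ ((Icc 1 N).filter (fun n => h * p ∣ n ∧ Squarefree n)).image (fun n => n / p),
          w m := by
      rw [Finset.sum_image]
      intro x hx y hy hxy
      simp only [Finset.mem_coe, Finset.mem_filter] at hx hy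
      obtain ⟨k, rfl⟩ := (Dvd.intro_left h rfl : p ∣ h * p).trans hx.2.1
      obtain ⟨l, rfl⟩ := (Dvd.intro_left h rfl : p ∣ h * p).trans hy.2.1
      simp only [Nat.mul_div_cancel_left _ hp.pos] at hxy
      rw [hxy]
    rw [h5]
    refine Finset.sum_le_sum_of_subset_of_nonneg ?_ fun n _ _ => w_nonneg n
    intro m hm
    simp only [Finset.mem_image, Finset.mem_filter, Finset.mem_Icc] at hm ⊢
    obtain ⟨n, ⟨⟨h6, h7⟩, h8, hs⟩, rfl⟩ := hm
    obtain ⟨k, rfl⟩ := (Dvd.intro_left h rfl : p ∣ h * p).trans h8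
    rw [Nat.mul_div_cancel_left k hp.pos]
    have hk : 1 ≤ k := by
      rcases Nat.eq_zero_or_pos k with h | h
      · subst h; simp at h6
      · exact h
    have hc : p.Coprime k := Nat.coprime_of_squarefree_mul hs
    refine ⟨⟨hk, ?_⟩, ?_, (Nat.Prime.coprime_iff_not_dvd hp).1 hc⟩
    · calc k = 1 * k := (one_mul k).symm
        _ ≤ p * k := Nat.mul_le_mul_right k hp.one_le
        _ ≤ N := h7
    · rw [mul_comm h p] at h8
      exact Nat.dvd_of_mul_dvd_mul_left hp.pos h8
  have : (p : ℝ) * ∑ n ∈ Icc 1 N, (if h * p ∣ n then w n else 0) =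
      ∑ n ∈ Icc 1 N, (if h * p ∣ n then w n else 0) +
      ((p : ℝ) - 1) * ∑ n ∈ Icc 1 N, (if h * p ∣ n then w n else 0) := by ring
  rw [this, h1]
  exact add_le_add h2 h3

/-- the bound for the coefficients -/
theorem bound (N : ℕ) : ∀ h : ℕ, 1 ≤ h →
    (Squarefree h → (h : ℝ) * ∑ n ∈ Icc 1 N, (if h ∣ n then w n else 0) ≤ SS N) := by
  intro h
  induction h using Nat.strong_induction_on with
  | _ h ih =>
    intro hh hs
    by_cases h1 : h = 1
    · subst h1
      simp [SS]
    · have hp := Nat.minFac_prime h1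
      obtain ⟨k, hk⟩ := Nat.minFac_dvd h
      set p := h.minFac with hpdef
      have hk0 : 1 ≤ k := by
        rcases Nat.eq_zero_or_pos k with h' | h'
        · subst h'; simp at hk; omega
        · exact h'
      have hlt : k < h := by
        rw [hk]
        calc k = 1 * k := (one_mul k).symm
          _ < p * k := Nat.mul_lt_mul_of_pos_right hp.one_lt hk0
      have hsk : Squarefree k := hs.squarefree_of_dvd ⟨p, by rw [hk]; ring⟩
      have h2 := ih k hlt hk0 hsk
      have h3 := step (N := N) (h := k) hp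
      have h4 : (h : ℝ) = p * k := by rw [hk]; push_cast; ring
      have h5 : h = k * p := by rw [hk]; ring
      rw [h4, h5]
      calc (p : ℝ) * k * ∑ n ∈ Icc 1 N, (if k * p ∣ n then w n else 0)
          = k * (p * ∑ n ∈ Icc 1 N, (if k * p ∣ n then w n else 0)) := by ring
        _ ≤ k * ∑ n ∈ Icc 1 N, (if k ∣ n then w n else 0) := by
            exact mul_le_mul_of_nonneg_left h3 (Nat.cast_nonneg k)
        _ ≤ SS N := h2

theorem SS_pos {N : ℕ} (hN : 1 ≤ N) : 0 < SS N := by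
  have h1 : w 1 ≤ SS N := Finset.single_le_sum (fun n _ => w_nonneg n)
    (Finset.mem_Icc.2 ⟨le_rfl, hN⟩)
  rw [w_one] at h1
  linarith

/-- **Selberg's diagonalisation** -/
theorem diag : S_diag := by
  intro N hN
  have hS := SS_pos hN
  refine ⟨aa N, ?_, ?_, ?_⟩
  · unfold aa bb
    rw [mu_one]
    have : ∑ n ∈ Icc 1 N, (if 1 ∣ n then w n else 0) = SS N := by
      simp [SS]
    rw [this]
    field_simp
    norm_num
  · intro h
    by_cases hs : Squarefree h
    · have h0 : 1 ≤ h := Nat.pos_of_ne_zero hs.ne_zero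
      have h1 := bound N h h0 hs
      have h2 : 0 ≤ ∑ n ∈ Icc 1 N, (if h ∣ n then w n else 0) := by
        refine Finset.sum_nonneg fun n _ => ?_
        split_ifs
        · exact w_nonneg n
        · exact le_rfl
      have hmu : |mu h| = 1 := by
        have := mu_sq hs
        rw [← sq_abs] at this
        nlinarith [abs_nonneg (mu h)]
      unfold aa bb
      rw [abs_mul, abs_mul, abs_mul, hmu, one_mul, abs_of_nonneg (Nat.cast_nonneg h),
        abs_of_nonneg h2, abs_of_pos (by positivity)]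
      have : (h : ℝ) * (1 / SS N * ∑ n ∈ Icc 1 N, (if h ∣ n then w n else 0)) =
          (h * ∑ n ∈ Icc 1 N, (if h ∣ n then w n else 0)) / SS N := by ring
      rw [this, div_le_one hS]
      exact h1
    · unfold aa
      rw [bb_nsq hs]
      simp
  · intro L
    rw [form, div_pow, one_pow]
    ring

end

end Pool.Agent.Helper46.PM
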